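import Mathlib

set_option autoImplicit false

open MeasureTheory Set Filter Topology ProbabilityTheory
open scoped ENNReal

namespace Pool.Agent.Q156.MK

/-- unnormalised gamma density -/
noncomputable def dn (r : ℝ) : ℝ → ℝ≥0∞ :=
  (Ioi (0 : ℝ)).indicator fun x => ENNReal.ofReal (x ^ (r - 1) * Real.exp (-x))

lemma dn_meas (r : ℝ) : Measurable (dn r) := by
  unfold dn
  apply Measurable.indicator _ measurableSet_Ioi
  apply ENNReal.measurable_ofReal.comp
  exact (measurable_id.pow_const _).mul (by fun_prop)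

lemma dn_pos (r : ℝ) {x : ℝ} (hx : 0 < x) :
    dn r x = ENNReal.ofReal (x ^ (r - 1) * Real.exp (-x)) := by
  unfold dn; exact indicator_of_mem hx _

lemma dn_neg (r : ℝ) {x : ℝ} (hx : ¬ 0 < x) : dn r x = 0 := by
  unfold dn; exact indicator_of_notMem hx _

lemma gm_eq {r : ℝ} (hr : 0 < r) {f : ℝ → ℝ≥0∞} (hf : Measurable f) :
    ∫⁻ x, f x ∂(gammaMeasure r 1) =
      ENNReal.ofReal (Real.Gamma r)⁻¹ * ∫⁻ x, dn r x * f x := by
  have hG : 0 < Real.Gamma r := Real.Gamma_pos_of_pos hr
  have hm : Measurable (gammaPDF r 1) := by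
    unfold gammaPDF
    exact ENNReal.measurable_ofReal.comp (measurable_gammaPDFReal r 1)
  unfold gammaMeasure
  rw [lintegral_withDensity_eq_lintegral_mul _ hm hf,
    ← lintegral_const_mul' _ _ ENNReal.ofReal_ne_top]
  apply lintegral_congr_ae
  have h0 : ∀ᵐ x : ℝ, x ≠ 0 := Measure.ae_ne volume 0
  filter_upwards [h0] with x hx
  rw [Pi.mul_apply, ← mul_assoc]
  congr 1
  rcases lt_or_gt_of_ne hx with h | h
  · rw [dn_neg r (not_lt.2 h.le), mul_zero]
    exact gammaPDF_of_neg h
  · rw [gammaPDF_of_nonneg h.le, dn_pos r h, ← ENNReal.ofReal_mul (by positivity)]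
    congr 1
    rw [Real.one_rpow, one_mul]
    ring

lemma scale {G : ℝ} (hG : 0 < G) {k : ℝ → ℝ≥0∞} (hk : Measurable k) :
    ∫⁻ x, k x = ENNReal.ofReal G * ∫⁻ u, k (G * u) := by
  have e : ∫⁻ s, k (G * s) = ∫⁻ r, k r ∂(Measure.map (fun x : ℝ => G * x) volume) :=
    (lintegral_map hk (by fun_prop)).symm
  rw [e, Real.map_volume_mul_left hG.ne', lintegral_smul_measure, smul_eq_mul,
    abs_of_pos (inv_pos.2 hG), ← mul_assoc, ← ENNReal.ofReal_mul hG.le, mul_inv_cancel₀ hG.ne',
    ENNReal.ofReal_one, one_mul]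

/-- beta weight -/
noncomputable def be (r u : ℝ) : ℝ := u ^ (r - 1) * (1 - u) ^ (r - 1)

/-- gamma weight with shape `2 r` -/
noncomputable def ga (a G : ℝ) : ℝ := G ^ (a - 1) * Real.exp (-G)

lemma polar {r : ℝ} {f : ℝ × ℝ → ℝ≥0∞} (hf : Measurable f) :
    ∫⁻ x, dn r x * ∫⁻ y, dn r y * f (x, y) =
      ∫⁻ u in Ioo (0 : ℝ) 1, ENNReal.ofReal (be r u) *
        ∫⁻ G in Ioi (0 : ℝ), ENNReal.ofReal (ga (2 * r) G) * f (G * u, G - G * u) := by
  have hdn := dn_meas r
  have h1 : ∀ x, dn r x * ∫⁻ y, dn r y * f (x, y) =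
      ∫⁻ G, dn r x * (dn r (G - x) * f (x, G - x)) := by
    intro x
    have hm : Measurable fun y => dn r y * f (x, y) := hdn.mul (hf.comp (by fun_prop))
    rw [← lintegral_sub_right_eq_self (fun y => dn r y * f (x, y)) x]
    rw [lintegral_const_mul]
    exact hm.comp (measurable_id.sub_const x)
  simp_rw [h1]
  have hK : Measurable fun p : ℝ × ℝ => dn r p.1 * (dn r (p.2 - p.1) * f (p.1, p.2 - p.1)) := by
    apply (hdn.comp measurable_fst).mul
    apply (hdn.comp (measurable_snd.sub measurable_fst)).mul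
    exact hf.comp (measurable_fst.prodMk (measurable_snd.sub measurable_fst))
  rw [lintegral_lintegral_swap hK.aemeasurable]
  have h2 : ∀ G, ∫⁻ x, dn r x * (dn r (G - x) * f (x, G - x)) =
      (Ioi (0 : ℝ)).indicator (fun G => ∫⁻ u in Ioo (0 : ℝ) 1,
        ENNReal.ofReal (be r u) * (ENNReal.ofReal (ga (2 * r) G) * f (G * u, G - G * u))) G := by
    intro G
    by_cases hG : 0 < G
    · rw [indicator_of_mem (show G ∈ Ioi (0 : ℝ) from hG)]
      have hk : Measurable fun x => dn r x * (dn r (G - x) * f (x, G - x)) :=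
        hK.comp (measurable_id.prodMk measurable_const)
      rw [scale hG hk, ← lintegral_const_mul' _ _ ENNReal.ofReal_ne_top,
        ← lintegral_indicator measurableSet_Ioo]
      apply lintegral_congr
      intro u
      by_cases hu : u ∈ Ioo (0 : ℝ) 1
      · rw [indicator_of_mem hu]
        have h3 : 0 < G * u := mul_pos hG hu.1
        have h4 : G - G * u = G * (1 - u) := by ring
        have h5 : 0 < 1 - u := by linarith [hu.2]
        have h6 : 0 < G * (1 - u) := mul_pos hG h5
        rw [h4, dn_pos r h3, dn_pos r h6, ← mul_assoc, ← mul_assoc, ← mul_assoc,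
          ← ENNReal.ofReal_mul hG.le,
          ← ENNReal.ofReal_mul (mul_nonneg hG.le
            (mul_nonneg (Real.rpow_nonneg h3.le _) (Real.exp_pos _).le)),
          ← ENNReal.ofReal_mul (show (0 : ℝ) ≤ be r u from mul_nonneg
            (Real.rpow_nonneg hu.1.le _) (Real.rpow_nonneg h5.le _))]
        congr 2
        unfold ga be
        rw [Real.mul_rpow hG.le hu.1.le, Real.mul_rpow hG.le h5.le]
        have e1 : G ^ (2 * r - 1) = G * G ^ (r - 1) * G ^ (r - 1) := by
          have : 2 * r - 1 = 1 + (r - 1) + (r - 1) := by ring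
          rw [this, Real.rpow_add hG, Real.rpow_add hG, Real.rpow_one]
        have e2 : Real.exp (-G) = Real.exp (-(G * u)) * Real.exp (-(G * (1 - u))) := by
          rw [← Real.exp_add]
          congr 1
          ring
        rw [e1, e2]
        ring
      · rw [indicator_of_notMem hu]
        by_cases h0 : 0 < G * u
        · have hu0 : 0 < u := (mul_pos_iff_of_pos_left hG).1 h0
          have h3 : ¬ 0 < G - G * u := by
            intro h
            have : 0 < G * (1 - u) := by linarith
            have : 0 < 1 - u := (mul_pos_iff_of_pos_left hG).1 this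
            exact hu ⟨hu0, by linarith⟩
          rw [dn_neg r h3]
          simp
        · rw [dn_neg r h0]
          simp
    · rw [indicator_of_notMem (show G ∉ Ioi (0 : ℝ) from hG)]
      have : ∀ x, dn r x * (dn r (G - x) * f (x, G - x)) = 0 := by
        intro x
        by_cases hx : 0 < x
        · rw [dn_neg r (show ¬ 0 < G - x by linarith)]
          simp
        · rw [dn_neg r hx]
          simp
      simp [this]
  simp_rw [h2]
  rw [lintegral_indicator measurableSet_Ioi]
  have hbm : Measurable (be r) := by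
    unfold be
    exact (measurable_id.pow_const _).mul ((measurable_const.sub measurable_id).pow_const _)
  have hgm : Measurable (ga (2 * r)) := by
    unfold ga
    exact (measurable_id.pow_const _).mul (by fun_prop)
  have hL : Measurable fun p : ℝ × ℝ => ENNReal.ofReal (be r p.2) *
      (ENNReal.ofReal (ga (2 * r) p.1) * f (p.1 * p.2, p.1 - p.1 * p.2)) := by
    apply (ENNReal.measurable_ofReal.comp (hbm.comp measurable_snd)).mul
    apply (ENNReal.measurable_ofReal.comp (hgm.comp measurable_fst)).mul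
    exact hf.comp (by fun_prop)
  rw [lintegral_lintegral_swap hL.aemeasurable]
  apply setLIntegral_congr_fun measurableSet_Ioo
  intro u _
  exact lintegral_const_mul' _ _ ENNReal.ofReal_ne_top

end Pool.Agent.Q156.MK
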