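import Pool.Agent.Q156.MK.A

set_option autoImplicit false

open MeasureTheory Set Filter Topology ProbabilityTheory
open scoped ENNReal

namespace Pool.Agent.Q156.MK

/-- `1 + κ (1 - 2u)` -/
noncomputable def wv (κ u : ℝ) : ℝ := 1 + κ * (1 - 2 * u)

lemma wv_ge {κ δ u : ℝ} (h : |κ| ≤ 1 - δ) (hu0 : 0 ≤ u) (hu1 : u ≤ 1) : δ ≤ wv κ u := by
  unfold wv
  have h1 : |1 - 2 * u| ≤ 1 := by rw [abs_le]; constructor <;> linarith
  have h2 : |κ * (1 - 2 * u)| ≤ 1 - δ := by
    rw [abs_mul]
    calc |κ| * |1 - 2 * u| ≤ |κ| * 1 := by gcongr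
      _ ≤ _ := by linarith
  linarith [(abs_le.1 h2).1]

lemma wv_pos {κ u : ℝ} (h : |κ| < 1) (hu0 : 0 ≤ u) (hu1 : u ≤ 1) : 0 < wv κ u := by
  have := wv_ge (δ := 1 - |κ|) (κ := κ) (by linarith) hu0 hu1
  linarith

/-- incomplete gamma integral -/
noncomputable def Hh (a x : ℝ) : ℝ := ∫ s in (0 : ℝ)..x, ga a s

lemma ga_ii {a : ℝ} (ha : 0 < a) (x y : ℝ) : IntervalIntegrable (ga a) volume x y := by
  unfold ga
  exact (intervalIntegral.intervalIntegrable_rpow' (by linarith)).mul_continuousOn (by fun_prop)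

lemma ga_int {a : ℝ} (ha : 0 < a) : IntegrableOn (ga a) (Ioi 0) :=
  (Real.GammaIntegral_convergent ha).congr_fun (fun x _ => mul_comm _ _) measurableSet_Ioi

lemma ga_total {a : ℝ} (ha : 0 < a) : ∫ s in Ioi (0 : ℝ), ga a s = Real.Gamma a := by
  rw [Real.Gamma_eq_integral ha]
  exact setIntegral_congr_fun measurableSet_Ioi (fun x _ => mul_comm _ _)

lemma ga_nonneg {a s : ℝ} (hs : 0 ≤ s) : 0 ≤ ga a s :=
  mul_nonneg (Real.rpow_nonneg hs _) (Real.exp_pos _).le

lemma Hh_cont {a : ℝ} (ha : 0 < a) : Continuous (Hh a) :=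
  intervalIntegral.continuous_primitive (fun x y => ga_ii ha x y) 0

lemma Hh_nonneg {a x : ℝ} (hx : 0 ≤ x) : 0 ≤ Hh a x :=
  intervalIntegral.integral_nonneg hx (fun _ hs => ga_nonneg hs.1)

lemma Hh_le {a x : ℝ} (ha : 0 < a) (hx : 0 ≤ x) : Hh a x ≤ Real.Gamma a := by
  rw [← ga_total ha, Hh, intervalIntegral.integral_of_le hx]
  exact setIntegral_mono_set (ga_int ha)
    (ae_restrict_of_forall_mem measurableSet_Ioi (fun s hs => ga_nonneg (le_of_lt hs)))
    (Ioc_subset_Ioi_self.eventuallyLE)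

lemma ga_meas (a : ℝ) : Measurable (ga a) := by
  unfold ga
  exact (measurable_id.pow_const _).mul (by fun_prop)

lemma Hh_deriv {a x : ℝ} (ha : 0 < a) (hx : 0 < x) : HasDerivAt (Hh a) (ga a x) x := by
  apply intervalIntegral.integral_hasDerivAt_right (ga_ii ha 0 x)
    ((ga_meas a).stronglyMeasurable.stronglyMeasurableAtFilter)
  unfold ga
  exact (Real.continuousAt_rpow_const _ _ (Or.inl hx.ne')).mul (by fun_prop)

lemma log_ineq {y : ℝ} (h0 : 0 < y) (h1 : y < 1) : 0 < 1 / y - y + 2 * Real.log y := by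
  have hx : 0 < -Real.log y := neg_pos.2 (Real.log_neg h0 h1)
  have := Real.self_lt_sinh_iff.2 hx
  rw [Real.sinh_eq, neg_neg, Real.exp_neg, Real.exp_log h0] at this
  rw [one_div]
  linarith

lemma dens {a y : ℝ} (ha : 0 < a) (h0 : 0 < y) (h1 : y < 1) :
    ga a (a / y) * (a / y ^ 2) < ga a (a * y) * a := by
  have hl := log_ineq h0 h1
  unfold ga
  have e1 : (a / y) ^ (a - 1) = Real.exp ((Real.log a - Real.log y) * (a - 1)) := by
    rw [Real.rpow_def_of_pos (by positivity), Real.log_div ha.ne' h0.ne']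
  have e2 : (a * y) ^ (a - 1) = Real.exp ((Real.log a + Real.log y) * (a - 1)) := by
    rw [Real.rpow_def_of_pos (by positivity), Real.log_mul ha.ne' h0.ne']
  have e3 : a / y ^ 2 = Real.exp (-(Real.log y + Real.log y)) * a := by
    rw [Real.exp_neg, Real.exp_add, Real.exp_log h0]
    field_simp
  rw [e1, e2, e3, ← Real.exp_add, ← Real.exp_add, ← mul_assoc, ← Real.exp_add]
  apply mul_lt_mul_of_pos_right _ ha
  apply Real.exp_lt_exp.2
  have h3 : 0 < a * (1 / y - y + 2 * Real.log y) := mul_pos ha hl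
  have e4 : a / y = a * (1 / y) := by ring
  rw [e4]
  nlinarith [h3]

lemma gamma_median {a : ℝ} (ha : 0 < a) : Real.Gamma a / 2 < Hh a a := by
  set Φ : ℝ → ℝ := fun y => Hh a (a * y) + Hh a (a / y) with hΦ
  have hd : ∀ y : ℝ, 0 < y → HasDerivAt Φ (ga a (a * y) * a + ga a (a / y) * (-(a / y ^ 2))) y := by
    intro y hy
    have h1 : HasDerivAt (fun y : ℝ => a * y) a y := by
      simpa using (hasDerivAt_id y).const_mul a
    have h2 : HasDerivAt (fun y : ℝ => a / y) (-(a / y ^ 2)) y := by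
      have := (hasDerivAt_inv hy.ne').const_mul a
      have e : a * -(y ^ 2)⁻¹ = -(a / y ^ 2) := by ring
      rw [e] at this
      exact this
    exact ((Hh_deriv ha (mul_pos ha hy)).comp y h1).add ((Hh_deriv ha (div_pos ha hy)).comp y h2)
  have hmono : StrictMonoOn Φ (Ioc 0 1) := by
    apply strictMonoOn_of_deriv_pos (convex_Ioc 0 1)
    · intro y hy
      exact (hd y hy.1).continuousAt.continuousWithinAt
    · intro y hy
      rw [interior_Ioc] at hy
      rw [(hd y hy.1).deriv]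
      have := dens ha hy.1 hy.2
      linarith
  have hlim : Tendsto Φ (𝓝[>] 0) (𝓝 (0 + Real.Gamma a)) := by
    apply Tendsto.add
    · have h1 : Continuous fun y : ℝ => Hh a (a * y) := (Hh_cont ha).comp (by fun_prop)
      have h2 := h1.tendsto 0
      have h3 : Hh a (a * 0) = 0 := by simp [Hh]
      rw [h3] at h2
      exact h2.mono_left nhdsWithin_le_nhds
    · rw [← ga_total ha]
      apply intervalIntegral_tendsto_integral_Ioi 0 (ga_int ha)
      have := (tendsto_inv_nhdsGT_zero (𝕜 := ℝ)).const_mul_atTop ha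
      exact this
  have h4 : Real.Gamma a ≤ Φ (1 / 2) := by
    rw [zero_add] at hlim
    apply le_of_tendsto hlim
    filter_upwards [Ioo_mem_nhdsGT (show (0 : ℝ) < 1 / 2 by norm_num)] with y hy
    exact hmono.monotoneOn ⟨hy.1, by linarith [hy.2]⟩ ⟨by norm_num, by norm_num⟩ hy.2.le
  have h5 : Φ (1 / 2) < Φ 1 := hmono ⟨by norm_num, by norm_num⟩ ⟨by norm_num, le_rfl⟩ (by norm_num)
  have h6 : Φ 1 = 2 * Hh a a := by
    simp only [hΦ, mul_one, div_one]
    ring
  linarith

lemma exT {a : ℝ} (ha : 0 < a) : ∃ T, 0 < T ∧ T < a ∧ Real.Gamma a / 2 < Hh a T := by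
  have h1 := (Hh_cont ha).continuousAt (x := a)
  have h2 : ∀ᶠ x in 𝓝[<] a, Real.Gamma a / 2 < Hh a x :=
    (h1.eventually (lt_mem_nhds (gamma_median ha))).filter_mono nhdsWithin_le_nhds
  have h3 : ∀ᶠ x in 𝓝[<] a, x ∈ Ioo 0 a := Ioo_mem_nhdsLT ha
  obtain ⟨T, h, h'⟩ := (h2.and h3).exists
  exact ⟨T, h'.1, h'.2, h⟩

/-- the kernel `w^(-2r-1) e^(-t/w)` -/
noncomputable def ke (r t κ u : ℝ) : ℝ := (wv κ u) ^ (-(2 * r) - 1) * Real.exp (-(t / wv κ u))

lemma wv_cont (κ : ℝ) : Continuous (wv κ) := by unfold wv; fun_prop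

lemma ke_cont {r t κ : ℝ} (h : |κ| < 1) : ContinuousOn (ke r t κ) (Icc 0 1) := by
  intro u hu
  have hw := wv_pos h hu.1 hu.2
  apply ContinuousAt.continuousWithinAt
  unfold ke
  apply ContinuousAt.mul
  · exact (wv_cont κ).continuousAt.rpow_const (Or.inl hw.ne')
  · exact Real.continuous_exp.continuousAt.comp
      ((continuousAt_const.div (wv_cont κ).continuousAt hw.ne').neg)

lemma ke_pos {r t κ u : ℝ} (h : |κ| < 1) (hu0 : 0 ≤ u) (hu1 : u ≤ 1) : 0 < ke r t κ u :=
  mul_pos (Real.rpow_pos_of_pos (wv_pos h hu0 hu1) _) (Real.exp_pos _)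

lemma D_pos {r t κ : ℝ} (hr : 0 < r) (ht0 : 0 < t) (ht : t < 2 * r) (hκ0 : 0 < κ) (hκ1 : κ < 1)
    (hbe : IntervalIntegrable (be r) volume 0 1) :
    0 < ∫ u in (0 : ℝ)..1, be r u * ((2 * u - 1) * ke r t κ u) := by
  have hκ : |κ| < 1 := by rw [abs_of_pos hκ0]; exact hκ1
  have hkc : ContinuousOn (ke r t κ) (uIcc 0 1) := by
    rw [uIcc_of_le zero_le_one]; exact ke_cont hκ
  have hwc : ContinuousOn (fun u => (wv κ u)⁻¹) (uIcc 0 1) := by
    rw [uIcc_of_le zero_le_one]
    intro u hu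
    exact ((wv_cont κ).continuousAt.inv₀ (wv_pos hκ hu.1 hu.2).ne').continuousWithinAt
  set p : ℝ → ℝ := fun u => u ^ r * (1 - u) ^ r *
    ((wv κ u) ^ (-(2 * r)) * Real.exp (-(t / wv κ u))) with hp
  set p' : ℝ → ℝ := fun u => be r u * (ke r t κ u *
    (r * (1 - 2 * u) + r * κ - 2 * κ * t * u * (1 - u) * (wv κ u)⁻¹)) with hp'
  set Q : ℝ → ℝ := fun u => be r u * (ke r t κ u *
    (κ * ((r * (wv κ u * (2 - wv κ u)) - 2 * t * u * (1 - u)) * (wv κ u)⁻¹))) with hQ
  have hpi : IntervalIntegrable p' volume 0 1 := by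
    apply hbe.mul_continuousOn
    apply hkc.mul
    exact (by fun_prop : ContinuousOn (fun u : ℝ => r * (1 - 2 * u) + r * κ) _).sub
      ((by fun_prop : ContinuousOn (fun u : ℝ => 2 * κ * t * u * (1 - u)) _).mul hwc)
  have hQi : IntervalIntegrable Q volume 0 1 := by
    apply hbe.mul_continuousOn
    apply hkc.mul
    apply continuousOn_const.mul
    apply ContinuousOn.mul _ hwc
    have := (wv_cont κ).continuousOn (s := uIcc (0 : ℝ) 1)
    exact (continuousOn_const.mul (this.mul (continuousOn_const.sub this))).sub (by fun_prop)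
  have hDi : IntervalIntegrable (fun u => be r u * ((2 * u - 1) * ke r t κ u)) volume 0 1 := by
    apply hbe.mul_continuousOn
    exact (by fun_prop : ContinuousOn (fun u : ℝ => 2 * u - 1) _).mul hkc
  have hFT : ∫ u in (0 : ℝ)..1, p' u = p 1 - p 0 := by
    apply intervalIntegral.integral_eq_sub_of_hasDerivAt_of_le zero_le_one _ _ hpi
    · intro u hu
      have hw := wv_pos hκ hu.1 hu.2
      apply ContinuousAt.continuousWithinAt
      apply ContinuousAt.mul
      · apply ContinuousAt.mul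
        · exact Real.continuousAt_rpow_const _ _ (Or.inr hr.le)
        · exact (continuousAt_const.sub continuousAt_id).rpow_const (Or.inr hr.le)
      · apply ContinuousAt.mul
        · exact (wv_cont κ).continuousAt.rpow_const (Or.inl hw.ne')
        · exact Real.continuous_exp.continuousAt.comp
            ((continuousAt_const.div (wv_cont κ).continuousAt hw.ne').neg)
    · intro u hu
      have hw := wv_pos hκ hu.1.le hu.2.le
      have h1u : 0 < 1 - u := by linarith [hu.2]
      have d1 : HasDerivAt (fun u : ℝ => u ^ r) (r * u ^ (r - 1)) u :=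
        Real.hasDerivAt_rpow_const (Or.inl hu.1.ne')
      have d2 : HasDerivAt (fun u : ℝ => (1 - u) ^ r) (-1 * r * (1 - u) ^ (r - 1)) u := by
        have := ((hasDerivAt_id u).const_sub 1).rpow_const (p := r) (Or.inl h1u.ne')
        exact this
      have dw : HasDerivAt (wv κ) (-(2 * κ)) u := by
        unfold wv
        have := (((hasDerivAt_id u).const_mul 2).const_sub 1).const_mul κ |>.const_add 1
        have e : κ * -(2 * 1) = -(2 * κ) := by ring
        rw [e] at this
        exact this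
      have d3 : HasDerivAt (fun u : ℝ => (wv κ u) ^ (-(2 * r)))
          (-(2 * κ) * (-(2 * r)) * (wv κ u) ^ (-(2 * r) - 1)) u :=
        dw.rpow_const (Or.inl hw.ne')
      have d4 : HasDerivAt (fun u : ℝ => Real.exp (-(t / wv κ u)))
          (Real.exp (-(t / wv κ u)) * (-(t * (-(-(2 * κ)) / (wv κ u) ^ 2)))) u := by
        have := ((dw.inv hw.ne').const_mul t).neg.exp
        exact this
      have := (d1.mul d2).mul (d3.mul d4)
      have key : p' u = (r * u ^ (r - 1) * (1 - u) ^ r + u ^ r * (-1 * r * (1 - u) ^ (r - 1))) *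
          ((wv κ u) ^ (-(2 * r)) * Real.exp (-(t / wv κ u))) + u ^ r * (1 - u) ^ r *
          (-(2 * κ) * (-(2 * r)) * (wv κ u) ^ (-(2 * r) - 1) * Real.exp (-(t / wv κ u)) +
          (wv κ u) ^ (-(2 * r)) * (Real.exp (-(t / wv κ u)) *
            (-(t * (-(-(2 * κ)) / (wv κ u) ^ 2))))) := ?_
      · rw [key]; exact this
      simp only [hp', be, ke]
      have e1 : u ^ r = u ^ (r - 1) * u := by
        rw [← Real.rpow_add_one hu.1.ne']; congr 1; ring
      have e2 : (1 - u) ^ r = (1 - u) ^ (r - 1) * (1 - u) := by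
        rw [← Real.rpow_add_one h1u.ne']; congr 1; ring
      have e3 : wv κ u ^ (-(2 * r)) = wv κ u ^ (-(2 * r) - 1) * wv κ u := by
        rw [← Real.rpow_add_one hw.ne']; congr 1; ring
      rw [e1, e2, e3]
      have hwd : wv κ u = 1 + κ * (1 - 2 * u) := rfl
      generalize wv κ u ^ (-(2 * r) - 1) = A
      generalize u ^ (r - 1) = B
      generalize (1 - u) ^ (r - 1) = C
      generalize Real.exp (-(t / wv κ u)) = Ee
      have hw' : wv κ u ≠ 0 := hw.ne'
      generalize wv κ u = W at *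
      field_simp
      rw [hwd]
      ring
  have hp1 : p 1 = 0 := by simp [hp, Real.zero_rpow hr.ne']
  have hp0 : p 0 = 0 := by simp [hp, Real.zero_rpow hr.ne']
  rw [hp1, hp0, sub_zero] at hFT
  have hQpos : 0 < ∫ u in (0 : ℝ)..1, Q u := by
    apply intervalIntegral.intervalIntegral_pos_of_pos_on hQi _ zero_lt_one
    intro u hu
    have hw := wv_pos hκ hu.1.le hu.2.le
    have h1u : 0 < 1 - u := by linarith [hu.2]
    have hb : 0 < be r u := mul_pos (Real.rpow_pos_of_pos hu.1 _) (Real.rpow_pos_of_pos h1u _)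
    have hk := ke_pos (r := r) (t := t) hκ hu.1.le hu.2.le
    have hu1 : 0 < u * (1 - u) := mul_pos hu.1 h1u
    have h1 : 0 < r * (wv κ u * (2 - wv κ u)) - 2 * t * u * (1 - u) := by
      have e : r * (wv κ u * (2 - wv κ u)) - 2 * t * u * (1 - u) =
          (2 * (2 * r - t)) * (u * (1 - u)) + r * (1 - κ ^ 2) * (1 - 2 * u) ^ 2 := by
        unfold wv; ring
      rw [e]
      have h2 : 0 < (2 * (2 * r - t)) * (u * (1 - u)) := mul_pos (by linarith) hu1
      have h3 : 0 ≤ r * (1 - κ ^ 2) * (1 - 2 * u) ^ 2 :=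
        mul_nonneg (mul_nonneg hr.le (by nlinarith)) (sq_nonneg _)
      linarith
    exact mul_pos hb (mul_pos hk (mul_pos hκ0 (mul_pos h1 (inv_pos.2 hw))))
  have hsum : ∫ u in (0 : ℝ)..1, Q u = (1 + κ ^ 2) * r *
      (∫ u in (0 : ℝ)..1, be r u * ((2 * u - 1) * ke r t κ u)) + ∫ u in (0 : ℝ)..1, p' u := by
    rw [← intervalIntegral.integral_const_mul, ← intervalIntegral.integral_add
      (hDi.const_mul _) hpi]
    apply intervalIntegral.integral_congr
    intro u hu
    rw [uIcc_of_le zero_le_one] at hu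
    have hw := wv_pos hκ hu.1 hu.2
    simp only [hQ, hp']
    have hw' : wv κ u ≠ 0 := hw.ne'
    have hwd : wv κ u = 1 + κ * (1 - 2 * u) := rfl
    generalize ke r t κ u = A
    generalize wv κ u = W at *
    have e : (κ * ((r * (W * (2 - W)) - 2 * t * u * (1 - u)) * W⁻¹)) =
        κ * r * (2 - W) - 2 * κ * t * u * (1 - u) * W⁻¹ := by
      field_simp
    rw [e]
    generalize W⁻¹ = V
    rw [hwd]
    ring
  rw [hFT, add_zero] at hsum
  rw [hsum] at hQpos
  have h7 : 0 < (1 + κ ^ 2) * r := by positivity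
  exact (mul_pos_iff_of_pos_left h7).1 hQpos

end Pool.Agent.Q156.MK
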