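import Pool.Agent.Q156.MK.B

set_option autoImplicit false

open MeasureTheory Set Filter Topology ProbabilityTheory
open scoped ENNReal

namespace Pool.Agent.Q156.MK

/-- law of a pair of independent gamma variables -/
noncomputable def PP (r : ℝ) : Measure (ℝ × ℝ) := (gammaMeasure r 1).prod (gammaMeasure r 1)

lemma lint {r : ℝ} (hr : 0 < r) {f : ℝ × ℝ → ℝ≥0∞} (hf : Measurable f) :
    ∫⁻ p, f p ∂(PP r) = (ENNReal.ofReal (Real.Gamma r)⁻¹) ^ 2 *
      ∫⁻ u in Ioo (0 : ℝ) 1, ENNReal.ofReal (be r u) *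
        ∫⁻ G in Ioi (0 : ℝ), ENNReal.ofReal (ga (2 * r) G) * f (G * u, G - G * u) := by
  have := isProbabilityMeasure_gammaMeasure hr one_pos
  unfold PP
  rw [lintegral_prod _ hf.aemeasurable, gm_eq hr (hf.lintegral_prod_right')]
  have : ∀ x, dn r x * ∫⁻ y, f (x, y) ∂(gammaMeasure r 1) =
      ENNReal.ofReal (Real.Gamma r)⁻¹ * (dn r x * ∫⁻ y, dn r y * f (x, y)) := by
    intro x
    rw [gm_eq hr (f := fun y => f (x, y)) (hf.comp measurable_prodMk_left)]
    ring
  simp_rw [this]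
  rw [lintegral_const_mul' _ _ ENNReal.ofReal_ne_top, polar hf, sq, mul_assoc]

lemma ga_lint {a : ℝ} (ha : 0 < a) :
    ∫⁻ G in Ioi (0 : ℝ), ENNReal.ofReal (ga a G) = ENNReal.ofReal (Real.Gamma a) := by
  rw [← ofReal_integral_eq_lintegral_ofReal (ga_int ha)
    (ae_restrict_of_forall_mem measurableSet_Ioi (fun s hs => ga_nonneg (le_of_lt hs))),
    ga_total ha]

lemma be_nonneg {r u : ℝ} (h0 : 0 ≤ u) (h1 : u ≤ 1) : 0 ≤ be r u :=
  mul_nonneg (Real.rpow_nonneg h0 _) (Real.rpow_nonneg (by linarith) _)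

lemma be_meas (r : ℝ) : Measurable (be r) := by
  unfold be
  exact (measurable_id.pow_const _).mul ((measurable_const.sub measurable_id).pow_const _)

lemma total_enn {r : ℝ} (hr : 0 < r) : (ENNReal.ofReal (Real.Gamma r)⁻¹) ^ 2 *
    ((∫⁻ u in Ioo (0 : ℝ) 1, ENNReal.ofReal (be r u)) * ENNReal.ofReal (Real.Gamma (2 * r)))
      = 1 := by
  have := isProbabilityMeasure_gammaMeasure hr one_pos
  have h := lint hr (f := fun _ => 1) measurable_const
  simp only [mul_one, ga_lint (by linarith : 0 < 2 * r)] at h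
  rw [lintegral_mul_const' _ _ ENNReal.ofReal_ne_top] at h
  rw [← h]
  simp [PP]

lemma be_ii {r : ℝ} (hr : 0 < r) : IntervalIntegrable (be r) volume 0 1 := by
  rw [intervalIntegrable_iff_integrableOn_Ioo_of_le zero_le_one]
  refine ⟨(be_meas r).aestronglyMeasurable, ?_⟩
  rw [hasFiniteIntegral_iff_ofReal
    (ae_restrict_of_forall_mem measurableSet_Ioo (fun u hu => be_nonneg hu.1.le hu.2.le))]
  by_contra h
  have h' : ∫⁻ u in Ioo (0 : ℝ) 1, ENNReal.ofReal (be r u) = ⊤ := not_lt_top_iff.1 h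
  have h3 := total_enn hr
  have g1 : 0 < Real.Gamma r := Real.Gamma_pos_of_pos hr
  have g2 : 0 < Real.Gamma (2 * r) := Real.Gamma_pos_of_pos (by linarith)
  rw [h', ENNReal.top_mul (by simpa using g2), ENNReal.mul_top
    (pow_ne_zero _ (by simpa using g1))] at h3
  exact ENNReal.top_ne_one h3

lemma total_real {r : ℝ} (hr : 0 < r) :
    ((Real.Gamma r)⁻¹) ^ 2 * ((∫ u in (0 : ℝ)..1, be r u) * Real.Gamma (2 * r)) = 1 := by
  have h := total_enn hr
  have g1 : 0 < Real.Gamma r := Real.Gamma_pos_of_pos hr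
  have g2 : 0 < Real.Gamma (2 * r) := Real.Gamma_pos_of_pos (by linarith)
  have hI : ∫⁻ u in Ioo (0 : ℝ) 1, ENNReal.ofReal (be r u) =
      ENNReal.ofReal (∫ u in (0 : ℝ)..1, be r u) := by
    rw [intervalIntegral.integral_of_le zero_le_one, integral_Ioc_eq_integral_Ioo,
      ofReal_integral_eq_lintegral_ofReal]
    · exact (intervalIntegrable_iff_integrableOn_Ioo_of_le zero_le_one).1 (be_ii hr)
    · exact ae_restrict_of_forall_mem measurableSet_Ioo (fun u hu => be_nonneg hu.1.le hu.2.le)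
  have hI0 : 0 ≤ ∫ u in (0 : ℝ)..1, be r u :=
    intervalIntegral.integral_nonneg zero_le_one (fun u hu => be_nonneg hu.1 hu.2)
  rw [hI, ← ENNReal.ofReal_pow (by positivity), ← ENNReal.ofReal_mul hI0,
    ← ENNReal.ofReal_mul (by positivity), ENNReal.ofReal_eq_one] at h
  exact h

/-- unnormalised distribution function -/
noncomputable def Fr (r κ t : ℝ) : ℝ := ∫ u in (0 : ℝ)..1, be r u * Hh (2 * r) (t / wv κ u)

lemma Hw_cont {r t κ : ℝ} (hr : 0 < r) (h : |κ| < 1) :
    ContinuousOn (fun u => Hh (2 * r) (t / wv κ u)) (Icc 0 1) := by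
  apply (Hh_cont (by linarith)).comp_continuousOn
  intro u hu
  exact (continuousAt_const.div (wv_cont κ).continuousAt
    (wv_pos h hu.1 hu.2).ne').continuousWithinAt

lemma Fr_ii {r t κ : ℝ} (hr : 0 < r) (h : |κ| < 1) :
    IntervalIntegrable (fun u => be r u * Hh (2 * r) (t / wv κ u)) volume 0 1 :=
  (be_ii hr).mul_continuousOn (by rw [uIcc_of_le zero_le_one]; exact Hw_cont hr h)

lemma law {r κ : ℝ} (hr : 0 < r) (h : |κ| < 1) (t : ℝ) :
    PP r {p : ℝ × ℝ | (1 - κ) * p.1 + (1 + κ) * p.2 ≤ t} =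
      ENNReal.ofReal (((Real.Gamma r)⁻¹) ^ 2 * Fr r κ (max t 0)) := by
  have g1 : 0 < Real.Gamma r := Real.Gamma_pos_of_pos hr
  set S : Set (ℝ × ℝ) := {p : ℝ × ℝ | (1 - κ) * p.1 + (1 + κ) * p.2 ≤ t} with hS
  have hSm : MeasurableSet S := measurableSet_le (by fun_prop) measurable_const
  rw [← lintegral_indicator_one hSm, lint hr (measurable_one.indicator hSm),
    ENNReal.ofReal_mul (by positivity), ENNReal.ofReal_pow (by positivity)]
  congr 1
  unfold Fr
  rw [intervalIntegral.integral_of_le zero_le_one, integral_Ioc_eq_integral_Ioo,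
    ofReal_integral_eq_lintegral_ofReal]
  · apply setLIntegral_congr_fun measurableSet_Ioo
    intro u hu
    have hw := wv_pos h hu.1.le hu.2.le
    simp only
    rw [ENNReal.ofReal_mul (be_nonneg hu.1.le hu.2.le)]
    congr 1
    have e1 : EqOn (fun G => ENNReal.ofReal (ga (2 * r) G) * S.indicator 1 (G * u, G - G * u))
        ((Iic (t / wv κ u)).indicator (fun G => ENNReal.ofReal (ga (2 * r) G))) (Ioi 0) := by
      intro G _
      have hiff : (G * u, G - G * u) ∈ S ↔ G ∈ Iic (t / wv κ u) := by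
        rw [mem_Iic, le_div_iff₀ hw, hS, mem_ofPred_eq]
        have : (1 - κ) * (G * u) + (1 + κ) * (G - G * u) = G * wv κ u := by unfold wv; ring
        simp only [this]
      simp only
      by_cases hm : G ∈ Iic (t / wv κ u)
      · rw [indicator_of_mem hm, indicator_of_mem (hiff.2 hm)]; simp
      · rw [indicator_of_notMem hm, indicator_of_notMem (fun h => hm (hiff.1 h))]; simp
    rw [setLIntegral_congr_fun measurableSet_Ioi e1, lintegral_indicator measurableSet_Iic,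
      Measure.restrict_restrict measurableSet_Iic]
    have e2 : Iic (t / wv κ u) ∩ Ioi 0 = Ioc 0 (t / wv κ u) := by
      ext; simp [and_comm]
    rw [e2]
    by_cases ht : 0 ≤ t
    · rw [max_eq_left ht, Hh, intervalIntegral.integral_of_le (div_nonneg ht hw.le),
        ofReal_integral_eq_lintegral_ofReal]
      · exact (ga_int (by linarith)).mono_set Ioc_subset_Ioi_self
      · exact ae_restrict_of_forall_mem measurableSet_Ioc (fun s hs => ga_nonneg hs.1.le)
    · have : t / wv κ u < 0 := div_neg_of_neg_of_pos (not_le.1 ht) hw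
      rw [max_eq_right (not_le.1 ht).le, Ioc_eq_empty (not_lt.2 this.le)]
      simp [Hh]
  · exact (intervalIntegrable_iff_integrableOn_Ioo_of_le zero_le_one).1 (Fr_ii hr h)
  · apply ae_restrict_of_forall_mem measurableSet_Ioo
    intro u hu
    exact mul_nonneg (be_nonneg hu.1.le hu.2.le)
      (Hh_nonneg (div_nonneg (le_max_right _ _) (wv_pos h hu.1.le hu.2.le).le))

lemma Fr_cont {r κ : ℝ} (hr : 0 < r) (h : |κ| < 1) : ContinuousOn (Fr r κ) (Ici 0) := by
  have h2r : 0 < 2 * r := by linarith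
  intro t ht
  unfold Fr
  apply intervalIntegral.continuousWithinAt_of_dominated_interval
    (bound := fun u => be r u * Real.Gamma (2 * r))
  · exact Eventually.of_forall fun s => (intervalIntegrable_iff.1 (Fr_ii hr h)).aestronglyMeasurable
  · filter_upwards [self_mem_nhdsWithin] with s hs
    apply ae_of_all
    intro u hu
    rw [uIoc_of_le zero_le_one] at hu
    have hb : 0 ≤ be r u := be_nonneg hu.1.le hu.2
    have h0 : 0 ≤ s / wv κ u := div_nonneg hs (wv_pos h hu.1.le hu.2).le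
    have h1 := Hh_nonneg (a := 2 * r) h0
    have h2 := Hh_le h2r h0
    rw [Real.norm_eq_abs, abs_mul, abs_of_nonneg hb, abs_of_nonneg h1]
    gcongr
  · exact (be_ii hr).mul_const _
  · apply ae_of_all
    intro u _
    exact (continuous_const.mul ((Hh_cont h2r).comp
      (continuous_id.div_const _))).continuousWithinAt

lemma Fr_deriv {r t κ : ℝ} (hr : 0 < r) (ht : 0 < t) (hκ : |κ| < 1) :
    HasDerivAt (fun k => Fr r k t)
      (t ^ (2 * r) * ∫ u in (0 : ℝ)..1, be r u * ((2 * u - 1) * ke r t κ u)) κ := by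
  have h2r : 0 < 2 * r := by linarith
  obtain ⟨ρ, hρ1, hρ2⟩ := exists_between hκ
  have hs : Ioo (-ρ) ρ ∈ 𝓝 κ :=
    Ioo_mem_nhds (by linarith [neg_abs_le κ]) (by linarith [le_abs_self κ])
  have habs : ∀ k ∈ Ioo (-ρ) ρ, |k| < 1 := fun k hk =>
    (abs_lt.2 ⟨hk.1, hk.2⟩).trans hρ2
  have hkc : ContinuousOn (ke r t κ) (uIcc 0 1) := by
    rw [uIcc_of_le zero_le_one]; exact ke_cont hκ
  have hDi : IntervalIntegrable (fun u => be r u * (t ^ (2 * r) * ((2 * u - 1) * ke r t κ u)))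
      volume 0 1 := by
    apply (be_ii hr).mul_continuousOn
    apply continuousOn_const.mul
    exact (by fun_prop : ContinuousOn (fun u : ℝ => 2 * u - 1) _).mul hkc
  have main := intervalIntegral.hasDerivAt_integral_of_dominated_loc_of_deriv_le
    (μ := volume) (a := 0) (b := 1)
    (F := fun k u => be r u * Hh (2 * r) (t / wv k u))
    (F' := fun k u => be r u * (t ^ (2 * r) * ((2 * u - 1) * ke r t k u))) (x₀ := κ)
    (s := Ioo (-ρ) ρ) (bound := fun u => be r u * (t ^ (2 * r) * (1 - ρ) ^ (-(2 * r) - 1)))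
    hs (by
      filter_upwards [hs] with k hk
      exact (intervalIntegrable_iff.1 (Fr_ii hr (habs k hk))).aestronglyMeasurable)
    (Fr_ii hr hκ) (intervalIntegrable_iff.1 hDi).aestronglyMeasurable
    (by
      apply ae_of_all
      intro u hu k hk
      rw [uIoc_of_le zero_le_one] at hu
      have hb : 0 ≤ be r u := be_nonneg hu.1.le hu.2
      have hw : 1 - ρ ≤ wv k u := wv_ge (by
        have := abs_lt.2 ⟨hk.1, hk.2⟩
        linarith) hu.1.le hu.2
      have hk0 := (ke_pos (r := r) (t := t) (habs k hk) hu.1.le hu.2)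
      have hρ : 0 < 1 - ρ := by linarith
      have hk1 : ke r t k u ≤ (1 - ρ) ^ (-(2 * r) - 1) := by
        unfold ke
        have a1 : wv k u ^ (-(2 * r) - 1) ≤ (1 - ρ) ^ (-(2 * r) - 1) :=
          Real.rpow_le_rpow_of_nonpos hρ hw (by linarith)
        have a2 : Real.exp (-(t / wv k u)) ≤ 1 := by
          rw [Real.exp_le_one_iff]
          have : 0 < t / wv k u := div_pos ht (by linarith)
          linarith
        calc _ ≤ (1 - ρ) ^ (-(2 * r) - 1) * 1 := by
              apply mul_le_mul a1 a2 (Real.exp_pos _).le (Real.rpow_nonneg hρ.le _)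
          _ = _ := mul_one _
      have ht' : 0 ≤ t ^ (2 * r) := Real.rpow_nonneg ht.le _
      rw [Real.norm_eq_abs, abs_mul, abs_of_nonneg hb, abs_mul, abs_of_nonneg ht', abs_mul,
        abs_of_pos hk0]
      have h21 : |2 * u - 1| ≤ 1 := by rw [abs_le]; constructor <;> linarith [hu.1, hu.2]
      apply mul_le_mul_of_nonneg_left _ hb
      apply mul_le_mul_of_nonneg_left _ ht'
      calc |2 * u - 1| * ke r t k u ≤ 1 * ke r t k u :=
            mul_le_mul_of_nonneg_right h21 hk0.le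
        _ ≤ _ := by rw [one_mul]; exact hk1)
    ((be_ii hr).mul_const _)
    (by
      apply ae_of_all
      intro u hu k hk
      rw [uIoc_of_le zero_le_one] at hu
      have hw : 0 < wv k u := wv_pos (habs k hk) hu.1.le hu.2
      have dw : HasDerivAt (fun k => wv k u) (1 - 2 * u) k := by
        unfold wv
        simpa using ((hasDerivAt_id k).mul_const (1 - 2 * u)).const_add 1
      have dt : HasDerivAt (fun k => t / wv k u) (t * (-(1 - 2 * u) / (wv k u) ^ 2)) k :=
        (dw.inv hw.ne').const_mul t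
      have d1 := ((Hh_deriv h2r (div_pos ht hw)).comp k dt).const_mul (be r u)
      have key : be r u * (t ^ (2 * r) * ((2 * u - 1) * ke r t k u)) =
          be r u * (ga (2 * r) (t / wv k u) * (t * (-(1 - 2 * u) / (wv k u) ^ 2))) := by
        congr 1
        unfold ke ga
        rw [Real.div_rpow ht.le hw.le]
        have e1 : t ^ (2 * r) = t ^ (2 * r - 1) * t := by
          rw [← Real.rpow_add_one ht.ne']; congr 1; ring
        have e2 : wv k u ^ (-(2 * r) - 1) = (wv k u ^ (2 * r - 1) * (wv k u) ^ 2)⁻¹ := by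
          rw [← Real.rpow_natCast, ← Real.rpow_add hw, ← Real.rpow_neg hw.le]
          congr 1
          push_cast
          ring
        rw [e1, e2]
        have h3 : 0 < wv k u ^ (2 * r - 1) := Real.rpow_pos_of_pos hw _
        field_simp
        ring
      rw [key]
      exact d1)
  have h5 := main.2
  have e : (fun k => Fr r k t) = fun k => ∫ u in (0 : ℝ)..1, be r u * Hh (2 * r) (t / wv k u) := rfl
  rw [e, ← intervalIntegral.integral_const_mul]
  have e2 : (∫ u in (0 : ℝ)..1, t ^ (2 * r) * (be r u * ((2 * u - 1) * ke r t κ u))) =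
      ∫ u in (0 : ℝ)..1, be r u * (t ^ (2 * r) * ((2 * u - 1) * ke r t κ u)) := by
    apply intervalIntegral.integral_congr
    intro u _
    simp only
    ring
  rw [e2]
  exact h5

lemma Fr_mono {r t : ℝ} (hr : 0 < r) (ht0 : 0 < t) (ht : t < 2 * r) :
    StrictMonoOn (fun k => Fr r k t) (Ico 0 1) := by
  apply strictMonoOn_of_deriv_pos (convex_Ico 0 1)
  · intro k hk
    exact (Fr_deriv hr ht0
      (abs_lt.2 ⟨by linarith [hk.1], hk.2⟩)).continuousAt.continuousWithinAt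
  · intro k hk
    rw [interior_Ico] at hk
    rw [(Fr_deriv hr ht0 (abs_lt.2 ⟨by linarith [hk.1], hk.2⟩)).deriv]
    exact mul_pos (Real.rpow_pos_of_pos ht0 _) (D_pos hr ht0 ht hk.1 hk.2 (be_ii hr))

lemma half {r T : ℝ} (hr : 0 < r) (hT : Real.Gamma (2 * r) / 2 < Hh (2 * r) T) :
    1 / 2 < ((Real.Gamma r)⁻¹) ^ 2 * Fr r 0 T := by
  have g2 : 0 < Real.Gamma (2 * r) := Real.Gamma_pos_of_pos (by linarith)
  have h := total_real hr
  have e : Fr r 0 T = (∫ u in (0 : ℝ)..1, be r u) * Hh (2 * r) T := by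
    unfold Fr
    rw [← intervalIntegral.integral_mul_const]
    apply intervalIntegral.integral_congr
    intro u _
    simp [wv]
  rw [e, ← mul_assoc]
  rw [← mul_assoc] at h
  set c := ((Real.Gamma r)⁻¹) ^ 2 * ∫ u in (0 : ℝ)..1, be r u with hc
  have hc0 : 0 < c := by
    by_contra h0
    have := mul_nonpos_of_nonpos_of_nonneg (not_lt.1 h0) g2.le
    linarith
  have := mul_lt_mul_of_pos_left hT hc0
  linarith

lemma med_lt {F1 F2 : ℝ → ℝ} {T φ : ℝ} (hφ : 0 < φ) (c1 : Continuous F1) (c2 : Continuous F2)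
    (z1 : ∀ t ≤ 0, F1 t = 0) (z2 : ∀ t ≤ 0, F2 t = 0) (hT2 : 1 / 2 ≤ F2 T)
    (hlt : ∀ t, 0 < t → t ≤ T → F2 t < F1 t) :
    sInf {x : ℝ | 1 / 2 ≤ F1 (x / φ)} < sInf {x : ℝ | 1 / 2 ≤ F2 (x / φ)} := by
  set S1 := {x : ℝ | 1 / 2 ≤ F1 (x / φ)} with hS1
  set S2 := {x : ℝ | 1 / 2 ≤ F2 (x / φ)} with hS2
  have pos1 : ∀ x ∈ S1, 0 ≤ x := by
    intro x hx
    by_contra h
    have : x / φ ≤ 0 := div_nonpos_of_nonpos_of_nonneg (not_le.1 h).le hφ.le
    have h1 : 1 / 2 ≤ F1 (x / φ) := hx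
    rw [z1 _ this] at h1
    norm_num at h1
  have pos2 : ∀ x ∈ S2, 0 < x := by
    intro x hx
    by_contra h
    have : x / φ ≤ 0 := div_nonpos_of_nonpos_of_nonneg (not_lt.1 h) hφ.le
    have h1 : 1 / 2 ≤ F2 (x / φ) := hx
    rw [z2 _ this] at h1
    norm_num at h1
  have hTm : T * φ ∈ S2 := by
    change 1 / 2 ≤ F2 (T * φ / φ)
    rw [mul_div_cancel_right₀ _ hφ.ne']
    exact hT2
  have hcl : IsClosed S2 := isClosed_le continuous_const (c2.comp (continuous_id.div_const _))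
  have hbd : BddBelow S2 := ⟨0, fun x hx => (pos2 x hx).le⟩
  have hmem : sInf S2 ∈ S2 := hcl.csInf_mem ⟨_, hTm⟩ hbd
  have hle : sInf S2 ≤ T * φ := csInf_le hbd hTm
  have hp := pos2 _ hmem
  have h1 : 1 / 2 < F1 (sInf S2 / φ) :=
    lt_of_le_of_lt hmem (hlt _ (div_pos hp hφ) ((div_le_iff₀ hφ).2 hle))
  have hc : Continuous fun x => F1 (x / φ) := c1.comp (continuous_id.div_const _)
  have h2 : ∀ᶠ x in 𝓝[<] (sInf S2), 1 / 2 < F1 (x / φ) :=
    (hc.continuousAt.eventually (lt_mem_nhds h1)).filter_mono nhdsWithin_le_nhds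
  have h3 : ∀ᶠ x in 𝓝[<] (sInf S2), x < sInf S2 := self_mem_nhdsWithin
  obtain ⟨x, hx1, hx2⟩ := (h2.and h3).exists
  exact lt_of_le_of_lt (csInf_le ⟨0, pos1⟩ (show x ∈ S1 from hx1.le)) hx2

theorem main {r φ κ1 κ2 : ℝ} (hr : 0 < r) (hφ : 0 < φ) (h1 : 0 ≤ κ1) (h12 : κ1 < κ2)
    (h2 : κ2 < 1) :
    sInf {x : ℝ | 1 / 2 ≤ (PP r).real {p : ℝ × ℝ | φ * (1 - κ2) * p.1 + φ * (1 + κ2) * p.2 ≤ x}} <
    sInf {x : ℝ | 1 / 2 ≤
      (PP r).real {p : ℝ × ℝ | φ * (1 - κ1) * p.1 + φ * (1 + κ1) * p.2 ≤ x}} := by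
  have h2r : 0 < 2 * r := by linarith
  have g1 : 0 < Real.Gamma r := Real.Gamma_pos_of_pos hr
  have hset : ∀ κ x : ℝ, {p : ℝ × ℝ | φ * (1 - κ) * p.1 + φ * (1 + κ) * p.2 ≤ x} =
      {p : ℝ × ℝ | (1 - κ) * p.1 + (1 + κ) * p.2 ≤ x / φ} := by
    intro κ x
    ext p
    simp only [mem_ofPred_eq]
    rw [le_div_iff₀ hφ]
    constructor <;> intro h <;> linarith
  have hF : ∀ κ x : ℝ, |κ| < 1 →
      (PP r).real {p : ℝ × ℝ | φ * (1 - κ) * p.1 + φ * (1 + κ) * p.2 ≤ x} =
      ((Real.Gamma r)⁻¹) ^ 2 * Fr r κ (max (x / φ) 0) := by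
    intro κ x hκ
    rw [hset, Measure.real, law hr hκ, ENNReal.toReal_ofReal]
    apply mul_nonneg (by positivity)
    unfold Fr
    apply intervalIntegral.integral_nonneg zero_le_one
    intro u hu
    exact mul_nonneg (be_nonneg hu.1 hu.2)
      (Hh_nonneg (div_nonneg (le_max_right _ _) (wv_pos hκ hu.1 hu.2).le))
  have a1 : |κ1| < 1 := abs_lt.2 ⟨by linarith, by linarith⟩
  have a2 : |κ2| < 1 := abs_lt.2 ⟨by linarith, by linarith⟩
  have hcont : ∀ κ, |κ| < 1 → Continuous fun t => ((Real.Gamma r)⁻¹) ^ 2 * Fr r κ (max t 0) :=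
    fun κ hκ => continuous_const.mul ((Fr_cont hr hκ).comp_continuous
      (continuous_id.max continuous_const) (fun t => mem_Ici.2 (le_max_right _ _)))
  have hz : ∀ κ, ∀ t ≤ (0 : ℝ), ((Real.Gamma r)⁻¹) ^ 2 * Fr r κ (max t 0) = 0 := by
    intro κ t ht
    rw [max_eq_right ht]
    simp [Fr, Hh]
  obtain ⟨T, hT0, hT1, hT2⟩ := exT h2r
  simp_rw [hF κ2 _ a2, hF κ1 _ a1]
  apply med_lt (F1 := fun t => ((Real.Gamma r)⁻¹) ^ 2 * Fr r κ2 (max t 0))
    (F2 := fun t => ((Real.Gamma r)⁻¹) ^ 2 * Fr r κ1 (max t 0)) (T := T) hφ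
    (hcont κ2 a2) (hcont κ1 a1) (hz κ2) (hz κ1)
  · rw [max_eq_left hT0.le]
    apply (half hr hT2).le.trans
    apply mul_le_mul_of_nonneg_left _ (by positivity)
    exact (Fr_mono hr hT0 hT1).monotoneOn ⟨le_rfl, zero_lt_one⟩ ⟨h1, by linarith⟩ h1
  · intro t ht0 htT
    rw [max_eq_left ht0.le]
    apply mul_lt_mul_of_pos_left _ (by positivity)
    exact Fr_mono hr ht0 (by linarith) ⟨h1, by linarith⟩ ⟨by linarith, h2⟩ h12

end Pool.Agent.Q156.MK
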